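import Pool.Agent.D0H44.DM.Stm2

/-! SUP: the discrepancy is bounded uniformly in the shift by the discrepancies of the derivative. -/

set_option autoImplicit false

namespace Pool.Agent.D0H18.DM

open MeasureTheory Set Filter Pool.Agent.D0H44.DM

noncomputable section

/-- the saw function with period `α` -/
def saw (α β v : ℝ) : ℝ := Int.fract ((v - β) / α)

theorem saw_nonneg (α β v : ℝ) : 0 ≤ saw α β v := Int.fract_nonneg _

theorem saw_le_one (α β v : ℝ) : saw α β v ≤ 1 := (Int.fract_lt_one _).le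

theorem saw_meas (α β : ℝ) : Measurable (saw α β) := by
  unfold saw
  exact measurable_fract.comp ((measurable_id.sub_const β).div_const α)

theorem saw_per (α β b : ℝ) (hα : 0 < α) (n : ℤ) : saw α β (α * n + b) = saw α β b := by
  unfold saw
  have h : (α * n + b - β) / α = n + (b - β) / α := by
    field_simp
    ring
  rw [h, Int.fract_intCast_add]

theorem saw_int (α β a b : ℝ) : IntervalIntegrable (saw α β) volume a b := by
  refine IntervalIntegrable.mono_fun (intervalIntegrable_const (c := (1 : ℝ)))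
    (saw_meas α β).aestronglyMeasurable (Eventually.of_forall fun v => ?_)
  change ‖saw α β v‖ ≤ ‖(1:ℝ)‖
  rw [Real.norm_eq_abs, abs_of_nonneg (saw_nonneg _ _ _), norm_one]
  exact saw_le_one _ _ _

/-- unfolding with the weight `saw` -/
theorem wt (hU : S_UF) (g : ℝ → ℝ) (hg : Continuous g) (y α β : ℝ) (hy : 0 ≤ y) (hα : 0 < α) :
    IntervalIntegrable (fun b => saw α β b * dd g 0 y α b) volume 0 α ∧
    IntervalIntegrable (fun b => dd g 0 y α b) volume 0 α ∧
    ∫ v in (0:ℝ)..y, saw α β v * g v = (∫ b in (0:ℝ)..α, saw α β b * dd g 0 y α b) +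
      (∫ v in (0:ℝ)..y, g v) / α * ∫ b in (0:ℝ)..α, saw α β b := by
  obtain ⟨M, hM⟩ := (isCompact_Icc (a := (0:ℝ)) (b := y)).exists_bound_of_continuousOn hg.continuousOn
  have hM0 : 0 ≤ M := (norm_nonneg _).trans (hM 0 ⟨le_rfl, hy⟩)
  have hb1 : ∀ v, |ct g 0 y v| ≤ M := by
    intro v
    unfold ct
    by_cases hv : v ∈ Ioc 0 y
    · rw [indicator_of_mem hv]
      exact hM v ⟨hv.1.le, hv.2⟩
    · rw [indicator_of_notMem hv, abs_zero]
      exact hM0
  have hz1 : ∀ v, y < |v| → ct g 0 y v = 0 := by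
    intro v hv
    unfold ct
    refine indicator_of_notMem (fun h => ?_) _
    rw [abs_of_pos h.1] at hv
    exact absurd h.2 (not_le.2 hv)
  have hm1 : Measurable (ct g 0 y) := by
    unfold ct
    exact hg.measurable.indicator measurableSet_Ioc
  obtain ⟨i1, -⟩ := hU (ct g 0 y) M y α hm1 hb1 hz1 hα
  obtain ⟨i2, e2⟩ := hU (fun v => saw α β v * ct g 0 y v) M y α ((saw_meas α β).mul hm1)
    (fun v => by
      rw [abs_mul, abs_of_nonneg (saw_nonneg _ _ _)]
      exact (mul_le_of_le_one_left (abs_nonneg _) (saw_le_one _ _ _)).trans (hb1 v))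
    (fun v hv => by rw [hz1 v hv, mul_zero]) hα
  have e3 : ∀ b, (∑' n : ℤ, saw α β (α * n + b) * ct g 0 y (α * n + b)) = saw α β b * sm g 0 y α b := by
    intro b
    unfold sm
    rw [← tsum_mul_left]
    refine tsum_congr fun n => ?_
    rw [saw_per α β b hα n]
  simp only [e3] at i2 e2
  have i1' : IntervalIntegrable (fun b => sm g 0 y α b) volume 0 α := i1
  have i3 : IntervalIntegrable (fun b => dd g 0 y α b) volume 0 α := by
    unfold dd
    exact i1'.sub intervalIntegrable_const
  have e4 : ∀ b, saw α β b * dd g 0 y α b =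
      saw α β b * sm g 0 y α b - (∫ v in (0:ℝ)..y, g v) / α * saw α β b := by
    intro b
    unfold dd
    ring
  have i4 : IntervalIntegrable (fun b => (∫ v in (0:ℝ)..y, g v) / α * saw α β b) volume 0 α :=
    (saw_int α β 0 α).const_mul _
  refine ⟨?_, i3, ?_⟩
  · simp only [e4]
    exact i2.sub i4
  · simp only [e4]
    rw [intervalIntegral.integral_sub i2 i4, e2, intervalIntegral.integral_const_mul, sub_add_cancel]
    rw [intervalIntegral.integral_of_le hy, ← integral_indicator measurableSet_Ioc]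
    refine integral_congr_ae (Eventually.of_forall fun v => ?_)
    change (Ioc 0 y).indicator (fun v => saw α β v * g v) v = saw α β v * ct g 0 y v
    unfold ct
    by_cases hv : v ∈ Ioc 0 y
    · rw [indicator_of_mem hv, indicator_of_mem hv]
    · rw [indicator_of_notMem hv, indicator_of_notMem hv, mul_zero]

/-- the bound for the weighted integral -/
theorem wt_bound (hU : S_UF) (g : ℝ → ℝ) (hg : Continuous g) (y α β : ℝ) (hy : 0 ≤ y) (hα : 0 < α) :
    |(∫ v in (0:ℝ)..y, saw α β v * g v) - (∫ v in (0:ℝ)..y, g v) / α * ∫ b in (0:ℝ)..α, saw α β b| ≤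
      ∫ b in (0:ℝ)..α, |dd g 0 y α b| := by
  obtain ⟨i1, i2, e⟩ := wt hU g hg y α β hy hα
  rw [e, add_sub_cancel_right, ← Real.norm_eq_abs]
  refine intervalIntegral.norm_integral_le_of_norm_le hα.le (Eventually.of_forall fun b _ => ?_) i2.abs
  rw [Real.norm_eq_abs, abs_mul, abs_of_nonneg (saw_nonneg _ _ _)]
  exact mul_le_of_le_one_left (abs_nonneg _) (saw_le_one _ _ _)

/-- the sum as a finite sum, for `β ≤ 0` -/
theorem sm_eq (f : ℝ → ℝ) (y α β : ℝ) (hy : 0 ≤ y) (hα : 0 < α) (hβ : β ≤ 0) :
    sm f 0 y α β = ∑ k ∈ Finset.Ioc ⌊(0 - β) / α⌋₊ ⌊(y - β) / α⌋₊, f (α * k + β) := by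
  have ha : 0 ≤ (0 - β) / α := div_nonneg (by linarith) hα.le
  have hb : 0 ≤ (y - β) / α := div_nonneg (by linarith) hα.le
  have hmem : ∀ k : ℕ, k ∈ Finset.Ioc ⌊(0 - β) / α⌋₊ ⌊(y - β) / α⌋₊ ↔ α * (k : ℝ) + β ∈ Ioc (0:ℝ) y := by
    intro k
    rw [Finset.mem_Ioc, Nat.floor_lt ha, Nat.le_floor_iff hb, div_lt_iff₀ hα, le_div_iff₀ hα, mem_Ioc]
    constructor
    · rintro ⟨h1, h2⟩
      constructor <;> linarith
    · rintro ⟨h1, h2⟩
      constructor <;> linarith
  unfold sm
  rw [tsum_eq_sum (s := (Finset.Ioc ⌊(0 - β) / α⌋₊ ⌊(y - β) / α⌋₊).map Nat.castEmbedding)]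
  · rw [Finset.sum_map]
    refine Finset.sum_congr rfl fun k hk => ?_
    have h1 := (hmem k).1 hk
    rw [Nat.castEmbedding_apply, Int.cast_natCast]
    unfold ct
    rw [indicator_of_mem h1]
  · intro n hn
    unfold ct
    refine indicator_of_notMem (fun h => hn ?_) _
    have hn0 : 0 ≤ n := by
      by_contra hneg
      push Not at hneg
      have h2 : (n : ℝ) ≤ 0 := by exact_mod_cast hneg.le
      have h3 := mul_nonpos_of_nonneg_of_nonpos hα.le h2
      have h4 := h.1
      linarith
    obtain ⟨k, rfl⟩ := Int.eq_ofNat_of_zero_le hn0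
    rw [Finset.mem_map]
    refine ⟨k, (hmem k).2 ?_, rfl⟩
    have h5 : ((k : ℤ) : ℝ) = (k : ℝ) := Int.cast_natCast k
    rw [h5] at h
    exact h

/-- summation by parts, for `β ≤ 0` -/
theorem em (f : ℝ → ℝ) (hf : ContDiff ℝ 1 f) (y α β : ℝ) (hy : 0 ≤ y) (hα : 0 < α) (hβ : β ≤ 0) :
    dd f 0 y α β = f 0 * saw α β 0 - f y * saw α β y + ∫ v in (0:ℝ)..y, saw α β v * deriv f v := by
  have hdf : Differentiable ℝ f := hf.differentiable one_ne_zero
  have hcf : Continuous (deriv f) := hf.continuous_deriv le_rfl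
  set a : ℝ := (0 - β) / α with ha_def
  set b : ℝ := (y - β) / α with hb_def
  have ha : 0 ≤ a := div_nonneg (by linarith) hα.le
  have hab : a ≤ b := by
    rw [ha_def, hb_def]
    gcongr
  have hea : α * a + β = 0 := by rw [ha_def]; field_simp; ring
  have heb : α * b + β = y := by rw [hb_def]; field_simp; ring
  have hderiv : ∀ t, HasDerivAt (fun u => f (α * u + β)) (α * deriv f (α * t + β)) t := by
    intro t
    have h1 : HasDerivAt (fun u : ℝ => α * u + β) α t := by
      simpa using ((hasDerivAt_id t).const_mul α).add_const β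
    have h2 := (hdf (α * t + β)).hasDerivAt.comp t h1
    rw [mul_comm] at h2
    exact h2
  have hd : deriv (fun u => f (α * u + β)) = fun t => α * deriv f (α * t + β) := by
    funext t
    exact (hderiv t).deriv
  have hcont : Continuous (fun t => α * deriv f (α * t + β)) := by fun_prop
  have hA := sum_mul_eq_sub_sub_integral_mul (fun _ => (1 : ℝ)) (f := fun u => f (α * u + β)) ha hab
    (fun t _ => (hderiv t).differentiableAt) (by
      rw [hd]
      exact hcont.continuousOn.integrableOn_Icc)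
  have hone : ∀ m : ℕ, (∑ k ∈ Finset.Icc 0 m, (fun _ => (1 : ℝ)) k) = m + 1 := by
    intro m
    simp
  simp only [hone, mul_one, hd] at hA
  rw [← intervalIntegral.integral_of_le hab, hea, heb] at hA
  -- integration by parts
  have hP : ∫ t in a..b, t * (α * deriv f (α * t + β)) = b * f y - a * f 0 - ∫ t in a..b, f (α * t + β) := by
    have h1 := intervalIntegral.integral_mul_deriv_eq_deriv_mul (a := a) (b := b) (u := fun t => t)
      (u' := fun _ => (1 : ℝ)) (v := fun t => f (α * t + β)) (v' := fun t => α * deriv f (α * t + β))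
      (fun t _ => hasDerivAt_id t) (fun t _ => hderiv t) intervalIntegrable_const
      (hcont.intervalIntegrable _ _)
    rw [h1, hea, heb]
    simp only [one_mul]
  have hF : ∫ t in a..b, α * deriv f (α * t + β) = f y - f 0 := by
    rw [intervalIntegral.integral_eq_sub_of_hasDerivAt (fun t _ => hderiv t)
      (hcont.intervalIntegrable _ _), hea, heb]
  -- the fractional parts
  have hfl : ∀ t : ℝ, 0 ≤ t → ((⌊t⌋₊ : ℕ) : ℝ) = t - Int.fract t := by
    intro t ht
    rw [natCast_floor_eq_intCast_floor ht, Int.fract]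
    ring
  have hJ : ∫ t in a..b, (α * deriv f (α * t + β)) * (((⌊t⌋₊ : ℕ) : ℝ) + 1) =
      (∫ t in a..b, t * (α * deriv f (α * t + β))) + (∫ t in a..b, α * deriv f (α * t + β)) -
        ∫ t in a..b, (α * deriv f (α * t + β)) * Int.fract t := by
    have i1 : IntervalIntegrable (fun t => t * (α * deriv f (α * t + β))) volume a b :=
      (continuous_id.mul hcont).intervalIntegrable _ _
    have i2 : IntervalIntegrable (fun t => α * deriv f (α * t + β)) volume a b :=
      hcont.intervalIntegrable _ _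
    have i3 : IntervalIntegrable (fun t => (α * deriv f (α * t + β)) * Int.fract t) volume a b := by
      refine IntervalIntegrable.mono_fun i2
        (hcont.measurable.mul measurable_fract).aestronglyMeasurable (Eventually.of_forall fun t => ?_)
      change ‖(α * deriv f (α * t + β)) * Int.fract t‖ ≤ ‖α * deriv f (α * t + β)‖
      rw [norm_mul]
      refine mul_le_of_le_one_right (norm_nonneg _) ?_
      rw [Real.norm_eq_abs, abs_of_nonneg (Int.fract_nonneg t)]
      exact (Int.fract_lt_one t).le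
    rw [← intervalIntegral.integral_add i1 i2, ← intervalIntegral.integral_sub (i1.add i2) i3]
    refine intervalIntegral.integral_congr fun t ht => ?_
    rw [uIcc_of_le hab] at ht
    rw [hfl t (ha.trans ht.1)]
    ring
  -- substitutions
  have hS1 : ∫ t in a..b, f (α * t + β) = (∫ v in (0:ℝ)..y, f v) / α := by
    rw [intervalIntegral.integral_comp_mul_add f hα.ne' β, hea, heb, smul_eq_mul]
    field_simp
  have hS2 : ∫ t in a..b, (α * deriv f (α * t + β)) * Int.fract t =
      ∫ v in (0:ℝ)..y, saw α β v * deriv f v := by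
    have h1 : ∀ t, (α * deriv f (α * t + β)) * Int.fract t =
        α * (fun v => saw α β v * deriv f v) (α * t + β) := by
      intro t
      simp only [saw]
      have h2 : (α * t + β - β) / α = t := by field_simp; ring
      rw [h2]
      ring
    simp only [h1]
    rw [intervalIntegral.integral_const_mul]
    rw [intervalIntegral.integral_comp_mul_add (fun v => saw α β v * deriv f v) hα.ne' β, hea, heb,
      smul_eq_mul]
    field_simp
  have hs0 : saw α β 0 = Int.fract a := rfl
  have hsy : saw α β y = Int.fract b := rfl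
  unfold dd
  rw [sm_eq f y α β hy hα hβ, hA, hJ, hP, hF, hS1, hS2, hs0, hsy, hfl a ha, hfl b (ha.trans hab)]
  ring

theorem sm_shift (f : ℝ → ℝ) (x y α β : ℝ) (m : ℤ) : sm f x y α (β + α * m) = sm f x y α β := by
  unfold sm
  rw [← (Equiv.addRight m).tsum_eq (fun n : ℤ => ct f x y (α * n + β))]
  refine tsum_congr fun n => ?_
  congr 1
  rw [Equiv.coe_addRight]
  push_cast
  ring

theorem t_SUP (hU : S_UF) : S_SUP := by
  intro f hf hf0 y α β hy hα
  have hcf : Continuous (deriv f) := hf.continuous_deriv le_rfl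
  have hdf : Differentiable ℝ f := hf.differentiable one_ne_zero
  -- shift to `β ≤ 0`
  obtain ⟨m, hm⟩ : ∃ m : ℤ, β + α * m ≤ 0 := by
    obtain ⟨n, hn⟩ := exists_nat_ge (β / α)
    refine ⟨-(n : ℤ), ?_⟩
    rw [div_le_iff₀ hα] at hn
    push_cast
    linarith
  have hdd : dd f 0 y α β = dd f 0 y α (β + α * m) := by
    unfold dd
    rw [sm_shift]
  rw [hdd]
  set γ := β + α * m with hγ
  have hp : Continuous (ps (deriv f)) := hcf.max continuous_const
  have hn : Continuous (ng (deriv f)) := hcf.neg.max continuous_const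
  have hsplit : ∀ t, deriv f t = ps (deriv f) t - ng (deriv f) t := by
    intro t
    unfold ps ng
    rcases le_total 0 (deriv f t) with h | h
    · rw [max_eq_left h, max_eq_right (by linarith), sub_zero]
    · rw [max_eq_right h, max_eq_left (by linarith)]
      ring
  have hsaw : ∀ g : ℝ → ℝ, Continuous g → IntervalIntegrable (fun v => saw α γ v * g v) volume 0 y := by
    intro g hg
    refine IntervalIntegrable.mono_fun (hg.intervalIntegrable _ _)
      ((saw_meas α γ).mul hg.measurable).aestronglyMeasurable (Eventually.of_forall fun t => ?_)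
    change ‖saw α γ t * g t‖ ≤ ‖g t‖
    rw [norm_mul]
    refine mul_le_of_le_one_left (norm_nonneg _) ?_
    rw [Real.norm_eq_abs, abs_of_nonneg (saw_nonneg _ _ _)]
    exact saw_le_one _ _ _
  have e1 : ∫ v in (0:ℝ)..y, saw α γ v * deriv f v =
      (∫ v in (0:ℝ)..y, saw α γ v * ps (deriv f) v) - ∫ v in (0:ℝ)..y, saw α γ v * ng (deriv f) v := by
    rw [← intervalIntegral.integral_sub (hsaw _ hp) (hsaw _ hn)]
    refine intervalIntegral.integral_congr fun t _ => ?_
    rw [hsplit t]
    ring
  have e2 : (∫ v in (0:ℝ)..y, ps (deriv f) v) - ∫ v in (0:ℝ)..y, ng (deriv f) v = f y - f 0 := by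
    rw [← intervalIntegral.integral_sub (hp.intervalIntegrable _ _) (hn.intervalIntegrable _ _)]
    rw [← intervalIntegral.integral_deriv_eq_sub (fun t _ => hdf t) (hcf.intervalIntegrable _ _)]
    refine intervalIntegral.integral_congr fun t _ => ?_
    exact (hsplit t).symm
  have hW0 : 0 ≤ (∫ b in (0:ℝ)..α, saw α γ b) / α :=
    div_nonneg (intervalIntegral.integral_nonneg hα.le fun b _ => saw_nonneg _ _ _) hα.le
  have hW1 : (∫ b in (0:ℝ)..α, saw α γ b) / α ≤ 1 := by
    rw [div_le_one hα]
    have h := intervalIntegral.integral_mono_on hα.le (saw_int α γ 0 α)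
      (intervalIntegrable_const (c := (1 : ℝ))) (fun b _ => saw_le_one α γ b)
    simpa using h
  have b1 := wt_bound hU _ hp y α γ hy hα
  have b2 := wt_bound hU _ hn y α γ hy hα
  rw [em f hf y α γ hy hα hm, e1]
  set W := (∫ b in (0:ℝ)..α, saw α γ b) with hW
  set A1 := ∫ v in (0:ℝ)..y, saw α γ v * ps (deriv f) v
  set A2 := ∫ v in (0:ℝ)..y, saw α γ v * ng (deriv f) v
  set I1 := ∫ v in (0:ℝ)..y, ps (deriv f) v
  set I2 := ∫ v in (0:ℝ)..y, ng (deriv f) v
  have h0 := hf0 0
  have hy0 := hf0 y
  have s0 := saw_nonneg α γ 0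
  have s1 := saw_le_one α γ 0
  have s2 := saw_nonneg α γ y
  have s3 := saw_le_one α γ y
  have e3 : f 0 * saw α γ 0 - f y * saw α γ y + (A1 - A2) =
      (A1 - I1 / α * W) - (A2 - I2 / α * W) + (f y - f 0) * (W / α) + f 0 * saw α γ 0 -
        f y * saw α γ y := by
    rw [← e2]
    field_simp
    ring
  rw [e3]
  have c1 := abs_le.1 b1
  have c2 := abs_le.1 b2
  have d1 : 0 ≤ f y * (W / α) := mul_nonneg hy0 hW0
  have d2 : f y * (W / α) ≤ f y := mul_le_of_le_one_right hy0 hW1
  have d3 : 0 ≤ f 0 * (W / α) := mul_nonneg h0 hW0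
  have d4 : f 0 * (W / α) ≤ f 0 := mul_le_of_le_one_right h0 hW1
  have d5 : 0 ≤ f 0 * saw α γ 0 := mul_nonneg h0 s0
  have d6 : f 0 * saw α γ 0 ≤ f 0 := mul_le_of_le_one_right h0 s1
  have d7 : 0 ≤ f y * saw α γ y := mul_nonneg hy0 s2
  have d8 : f y * saw α γ y ≤ f y := mul_le_of_le_one_right hy0 s3
  rw [sub_mul, abs_le]
  constructor <;> linarith [c1.1, c1.2, c2.1, c2.2]

end

end Pool.Agent.D0H18.DM
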